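import Pool.Agent.H85.KS2.Targets
import Pool.Agent.H4.KS.L5
import Pool.Agent.H1.KS.ARC

/-!
# MP_ff41bc_an, module L5b: comparison of `NN` with its average
-/

set_option autoImplicit false

open scoped BigOperators
open Finset MeasureTheory

namespace Pool.Agent.H54.KS2

open Pool.Agent.H98.KS Pool.Agent.H85.KS2 Pool.Agent.H4.KS

/-- decay of `bb0 ^ d` -/
lemma l5b_bb {k d q : ℕ} {κ : ℝ} (hk : 3 ≤ k) (hd : 4 * k ≤ d) (hd' : 6 * (k - 1) ≤ d)
    (hq : 1 ≤ q) : bb0 k q κ ^ d ≤ 1 / (q : ℝ) ^ 4 * (1 / (1 + |κ|) ^ 3) := by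
  have hq1 : (1 : ℝ) ≤ q := by exact_mod_cast hq
  have hq0 : (0 : ℝ) ≤ q := by linarith
  have hκ : (1 : ℝ) ≤ 1 + |κ| := by linarith [abs_nonneg κ]
  have hκ0 : (0 : ℝ) ≤ 1 + |κ| := by linarith
  have hk3 : (3 : ℝ) ≤ k := by exact_mod_cast hk
  have hd6 : 4 * (k : ℝ) ≤ d := by exact_mod_cast hd
  have hd7 : 6 * ((k : ℝ) - 1) ≤ d := by
    have h : ((6 * (k - 1) : ℕ) : ℝ) ≤ d := by exact_mod_cast hd'
    rw [Nat.cast_mul, Nat.cast_sub (by omega)] at h
    push_cast at h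
    exact h
  unfold bb0
  rw [mul_pow]
  refine mul_le_mul ?_ ?_ (by positivity) (by positivity)
  · rw [← Real.rpow_natCast ((q : ℝ) ^ (-(1 / (k : ℝ)))) d, ← Real.rpow_mul hq0]
    have h1 : 1 / (q : ℝ) ^ 4 = (q : ℝ) ^ (-(4 : ℝ)) := by
      rw [Real.rpow_neg hq0, one_div]
      congr 1
      exact_mod_cast (Real.rpow_natCast (q : ℝ) 4).symm
    rw [h1]
    apply Real.rpow_le_rpow_of_exponent_le hq1
    have h2 : -(1 / (k : ℝ)) * d = -(d / k) := by ring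
    rw [h2, neg_le_neg_iff, le_div_iff₀ (by linarith)]
    linarith
  · rw [← Real.rpow_natCast ((1 + |κ|) ^ (-(e0 k))) d, ← Real.rpow_mul hκ0]
    have h1 : 1 / (1 + |κ|) ^ 3 = (1 + |κ|) ^ (-(3 : ℝ)) := by
      rw [Real.rpow_neg hκ0, one_div]
      congr 1
      exact_mod_cast (Real.rpow_natCast (1 + |κ|) 3).symm
    rw [h1]
    apply Real.rpow_le_rpow_of_exponent_le hκ
    unfold e0
    have h2 : -(1 / (2 * ((k : ℝ) - 1))) * d = -(d / (2 * ((k : ℝ) - 1))) := by ring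
    rw [h2, neg_le_neg_iff, le_div_iff₀ (by linarith)]
    linarith

theorem ks2_L5b (hNI : T_NI) (hSB : T_SB) (hARC : T_ARC) (hGB : T_GB) (hNUM : T_NUM)
    (hMA : T_MA) : T_L5b := by
  intro k d hk hkd0
  obtain ⟨hkd, -, -, hd4, hd6, -⟩ := hNUM k d hk hkd0
  obtain ⟨δ, C1, hδ0, -, hC1, hma⟩ := hMA k d hk hkd0
  obtain ⟨Cg, hCg⟩ := hGB k hk
  obtain ⟨C2, hC2, hsb⟩ := hSB k Cg hk hCg
  refine ⟨δ, 2 * C1 + 112 * C2 ^ d, hδ0, by positivity, ?_⟩
  intro X l W J Q1 η K hX hW hQ1 hdiv hK hη0 hη1 hJl hlX hJW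
  have hXr : (1 : ℝ) ≤ X := by exact_mod_cast hX
  have hX0 : (0 : ℝ) < X := by linarith
  have hK0 : 0 < K := by linarith
  have hQ0 : (0 : ℝ) < Q1 := by exact_mod_cast hQ1
  obtain ⟨f, hf⟩ : ∃ f : ℝ → ℝ, f = fun θ => ‖1 - l5w W J θ‖ * ‖Ss k X θ 0‖ ^ d := ⟨_, rfl⟩
  have hfc : Continuous f := by
    rw [hf]
    exact (continuous_const.sub (l5w_cont W J)).norm.mul ((l5_Ss_cont k X).norm.pow d)
  have hf0 : ∀ θ, 0 ≤ f θ := by
    intro θ
    rw [hf]
    positivity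
  have h1 : |(NN k d l : ℝ) - AvN k d l W J| ≤ ∫ θ in (0 : ℝ)..1, f θ := by
    rw [← Real.norm_eq_abs, ← Complex.norm_real, l5_repr hNI (by omega : 1 ≤ k) hJl hlX]
    refine (intervalIntegral.norm_integral_le_integral_norm zero_le_one).trans (le_of_eq ?_)
    refine intervalIntegral.integral_congr fun θ _ => ?_
    simp only [norm_mul, l5_norm, one_mul, norm_pow, hf]
  have h2 := hARC k X f hX hfc hf0
  -- minor arcs
  obtain ⟨g, hgc, hg0, hgb, hgi⟩ := hma X hX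
  have hXd : (X : ℝ) ^ ((d : ℝ) - k - δ) = (X : ℝ) ^ (d - k) * (X : ℝ) ^ (-δ) := by
    rw [sub_eq_add_neg ((d : ℝ) - k) δ, Real.rpow_add hX0, ← Nat.cast_sub hkd.le,
      Real.rpow_natCast]
  have hminor : ∫ θ in MinS k X, f θ ≤ 2 * C1 * ((X : ℝ) ^ (d - k) * (X : ℝ) ^ (-δ)) := by
    have hsub : MinS k X ⊆ Set.Icc 0 1 := fun θ hθ => ⟨hθ.1, hθ.2.1⟩
    have hI : ∀ u : ℝ → ℝ, Continuous u → IntegrableOn u (MinS k X) := fun u hu =>
      (hu.continuousOn.integrableOn_compact isCompact_Icc).mono_set hsub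
    calc ∫ θ in MinS k X, f θ ≤ ∫ θ in MinS k X, 2 * g θ := by
          refine setIntegral_mono_on (hI f hfc) (hI _ (continuous_const.mul hgc))
            (Pool.Agent.H1.KS.arc_measurable k X) fun θ hθ => ?_
          rw [hf]
          exact mul_le_mul (l5w_two W J θ) (hgb θ hθ 0) (by positivity) (by norm_num)
      _ = 2 * ∫ θ in MinS k X, g θ := integral_const_mul _ _
      _ ≤ 2 * (C1 * (X : ℝ) ^ ((d : ℝ) - k - δ)) := by gcongr
      _ = 2 * C1 * ((X : ℝ) ^ (d - k) * (X : ℝ) ^ (-δ)) := by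
          rw [hXd]
          ring
  -- major arcs
  obtain ⟨Δ, hΔ⟩ : ∃ Δ, Δ = η * K + 1 / K + 1 / Q1 := ⟨_, rfl⟩
  have hΔ0 : 0 ≤ Δ := by
    rw [hΔ]
    positivity
  have hpt : ∀ q ∈ Finset.Icc 1 (Qx X), ∀ a ∈ res q, ∀ κ ∈ {κ : ℝ | |κ| ≤ (X : ℝ) ^ ((1 : ℝ) / 20)},
      f (th k X a q κ) ≤ 7 * (C2 * X) ^ d * Δ * (1 / (q : ℝ) ^ 3) * (1 + κ ^ 2)⁻¹ := by
    intro q hq a ha κ hκ
    rw [Finset.mem_Icc] at hq
    have hq1 : (1 : ℝ) ≤ q := by exact_mod_cast hq.1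
    have hq0 : (0 : ℝ) < q := by linarith
    have hbig : big X q κ := by
      refine ⟨?_, hκ⟩
      have h3 : (q : ℝ) ≤ (Qx X : ℕ) := by exact_mod_cast hq.2
      exact h3.trans (Nat.floor_le (by positivity))
    have hcop : IsCoprime (a : ℤ) (q : ℤ) := by
      unfold res at ha
      exact Nat.isCoprime_iff_coprime.2 (Finset.mem_filter.1 ha).2
    have h3 := (hsb X q a 0 κ 0 hq.1 hX hcop hbig (by
      rw [abs_zero]
      positivity)).1
    have h4 : (((0 : ℤ) : ℝ) / q + 0) = 0 := by simp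
    rw [h4, div_le_iff₀ hX0] at h3
    have h5 : ‖Ss k X (th k X a q κ) 0‖ ^ d ≤ (C2 * X) ^ d *
        (1 / (q : ℝ) ^ 4 * (1 / (1 + |κ|) ^ 3)) := by
      calc ‖Ss k X (th k X a q κ) 0‖ ^ d ≤ (C2 * bb0 k q κ * X) ^ d :=
            pow_le_pow_left₀ (norm_nonneg _) h3 d
        _ = (C2 * X) ^ d * bb0 k q κ ^ d := by
            rw [← mul_pow]
            congr 1
            ring
        _ ≤ _ := mul_le_mul_of_nonneg_left (l5b_bb hk hd4 hd6 hq.1) (by positivity)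
    have hκ1 : (0 : ℝ) < 1 + |κ| := by linarith [abs_nonneg κ]
    -- the factor `1 - w`
    have h6 : ‖1 - l5w W J (th k X a q κ)‖ * (1 / (1 + |κ|) ^ 3) ≤
        7 * (Δ * q) * (1 + κ ^ 2)⁻¹ := by
      have h7 : 1 / (1 + |κ|) ^ 2 ≤ (1 + κ ^ 2)⁻¹ := by
        rw [one_div]
        apply inv_anti₀ (by positivity)
        have : κ ^ 2 = |κ| ^ 2 := (sq_abs κ).symm
        rw [this]
        nlinarith [abs_nonneg κ]
      have h8 : ‖1 - l5w W J (th k X a q κ)‖ * (1 / (1 + |κ|) ^ 3) ≤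
          7 * (Δ * q) * (1 / (1 + |κ|) ^ 2) := by
        have h9 : 1 / (1 + |κ|) ^ 3 = 1 / (1 + |κ|) * (1 / (1 + |κ|) ^ 2) := by
          rw [one_div_mul_one_div]
          congr 1
          ring
        rw [h9, ← mul_assoc]
        refine mul_le_mul_of_nonneg_right ?_ (by positivity)
        have hone : 1 / (1 + |κ|) ≤ 1 := by
          rw [div_le_one hκ1]
          linarith [abs_nonneg κ]
        by_cases hqQ : q ≤ Q1
        · have h10 := l5w_small (η := η) (κ := κ) a hX hq.1 (hdiv q hq.1 hqQ) hJW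
          by_cases hκK : |κ| ≤ K
          · calc ‖1 - l5w W J (th k X a q κ)‖ * (1 / (1 + |κ|))
                ≤ 7 * (η * |κ|) * 1 :=
                  mul_le_mul h10 hone (by positivity) (by positivity)
              _ ≤ 7 * (Δ * q) := by
                  have h11 : η * |κ| ≤ η * K := mul_le_mul_of_nonneg_left hκK hη0.le
                  have h12 : η * K ≤ Δ := by
                    rw [hΔ]
                    have : 0 ≤ 1 / K + 1 / (Q1 : ℝ) := by positivity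
                    linarith
                  have h13 : Δ ≤ Δ * q := le_mul_of_one_le_right hΔ0 hq1
                  linarith
          · push Not at hκK
            have h11 : 1 / (1 + |κ|) ≤ 1 / K := one_div_le_one_div_of_le hK0 (by linarith)
            calc ‖1 - l5w W J (th k X a q κ)‖ * (1 / (1 + |κ|)) ≤ 2 * (1 / K) :=
                  mul_le_mul (l5w_two W J _) h11 (by positivity) (by norm_num)
              _ ≤ 7 * (Δ * q) := by
                  have h12 : 1 / K ≤ Δ := by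
                    rw [hΔ]
                    have : 0 ≤ η * K + 1 / (Q1 : ℝ) := by positivity
                    linarith
                  have h13 : Δ ≤ Δ * q := le_mul_of_one_le_right hΔ0 hq1
                  have h14 : 0 ≤ 1 / K := by positivity
                  linarith
        · push Not at hqQ
          calc ‖1 - l5w W J (th k X a q κ)‖ * (1 / (1 + |κ|)) ≤ 2 * 1 :=
                mul_le_mul (l5w_two W J _) hone (by positivity) (by norm_num)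
            _ ≤ 7 * (Δ * q) := by
                have h12 : 1 / (Q1 : ℝ) ≤ Δ := by
                  rw [hΔ]
                  have : 0 ≤ η * K + 1 / K := by positivity
                  linarith
                have h13 : (Q1 : ℝ) ≤ q := by exact_mod_cast hqQ.le
                have h14 : 1 ≤ Δ * q := by
                  calc (1 : ℝ) = 1 / (Q1 : ℝ) * Q1 := by field_simp
                    _ ≤ Δ * q := mul_le_mul h12 h13 hQ0.le hΔ0
                linarith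
      exact h8.trans (mul_le_mul_of_nonneg_left h7 (by positivity))
    rw [hf]
    calc ‖1 - l5w W J (th k X a q κ)‖ * ‖Ss k X (th k X a q κ) 0‖ ^ d
        ≤ ‖1 - l5w W J (th k X a q κ)‖ * ((C2 * X) ^ d *
          (1 / (q : ℝ) ^ 4 * (1 / (1 + |κ|) ^ 3))) :=
          mul_le_mul_of_nonneg_left h5 (norm_nonneg _)
      _ = (C2 * X) ^ d * (1 / (q : ℝ) ^ 4) *
          (‖1 - l5w W J (th k X a q κ)‖ * (1 / (1 + |κ|) ^ 3)) := by ring
      _ ≤ (C2 * X) ^ d * (1 / (q : ℝ) ^ 4) * (7 * (Δ * q) * (1 + κ ^ 2)⁻¹) :=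
          mul_le_mul_of_nonneg_left h6 (by positivity)
      _ = 7 * (C2 * X) ^ d * Δ * (1 / (q : ℝ) ^ 3) * (1 + κ ^ 2)⁻¹ := by
          field_simp
  have hint : ∀ q ∈ Finset.Icc 1 (Qx X), ∀ a ∈ res q,
      ∫ κ in {κ : ℝ | |κ| ≤ (X : ℝ) ^ ((1 : ℝ) / 20)}, f (th k X a q κ) ≤
      28 * (C2 * X) ^ d * Δ * (1 / (q : ℝ) ^ 3) := by
    intro q hq a ha
    have hms : MeasurableSet {κ : ℝ | |κ| ≤ (X : ℝ) ^ ((1 : ℝ) / 20)} :=
      measurableSet_le continuous_abs.measurable measurable_const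
    have hcst : 0 ≤ 7 * (C2 * X) ^ d * Δ * (1 / (q : ℝ) ^ 3) := by positivity
    have hI := (integrable_inv_one_add_sq).const_mul (7 * (C2 * X) ^ d * Δ * (1 / (q : ℝ) ^ 3))
    calc ∫ κ in {κ : ℝ | |κ| ≤ (X : ℝ) ^ ((1 : ℝ) / 20)}, f (th k X a q κ)
        ≤ ∫ κ in {κ : ℝ | |κ| ≤ (X : ℝ) ^ ((1 : ℝ) / 20)},
          7 * (C2 * X) ^ d * Δ * (1 / (q : ℝ) ^ 3) * (1 + κ ^ 2)⁻¹ := by
          refine setIntegral_mono_on ?_ hI.integrableOn hms (hpt q hq a ha)
          have hset : {κ : ℝ | |κ| ≤ (X : ℝ) ^ ((1 : ℝ) / 20)} =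
              Set.Icc (-((X : ℝ) ^ ((1 : ℝ) / 20))) ((X : ℝ) ^ ((1 : ℝ) / 20)) := by
            ext κ
            exact ⟨fun h => abs_le.1 h, fun h => abs_le.2 h⟩
          rw [hset]
          refine ContinuousOn.integrableOn_compact isCompact_Icc ?_
          refine (hfc.comp ?_).continuousOn
          unfold th
          fun_prop
      _ ≤ ∫ κ : ℝ, 7 * (C2 * X) ^ d * Δ * (1 / (q : ℝ) ^ 3) * (1 + κ ^ 2)⁻¹ :=
          setIntegral_le_integral hI (Filter.Eventually.of_forall fun κ => by positivity)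
      _ = 7 * (C2 * X) ^ d * Δ * (1 / (q : ℝ) ^ 3) * Real.pi := by
          rw [integral_const_mul, integral_univ_inv_one_add_sq]
      _ ≤ 28 * (C2 * X) ^ d * Δ * (1 / (q : ℝ) ^ 3) := by
          have hpi := Real.pi_le_four
          nlinarith
  have hmajor : ∑ q ∈ Finset.Icc 1 (Qx X), ∑ a ∈ res q,
      ∫ κ in {κ : ℝ | |κ| ≤ (X : ℝ) ^ ((1 : ℝ) / 20)}, f (th k X a q κ) ≤
      112 * (C2 * X) ^ d * Δ := by
    calc ∑ q ∈ Finset.Icc 1 (Qx X), ∑ a ∈ res q,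
        ∫ κ in {κ : ℝ | |κ| ≤ (X : ℝ) ^ ((1 : ℝ) / 20)}, f (th k X a q κ)
        ≤ ∑ q ∈ Finset.Icc 1 (Qx X), 56 * (C2 * X) ^ d * Δ * (1 / (q : ℝ) ^ 2) := by
          refine Finset.sum_le_sum fun q hq => ?_
          refine (Finset.sum_le_card_nsmul _ _ _ (hint q hq)).trans ?_
          rw [nsmul_eq_mul]
          have hq1 := (Finset.mem_Icc.1 hq).1
          have hq0 : (0 : ℝ) < q := by exact_mod_cast hq1
          calc ((res q).card : ℝ) * (28 * (C2 * X) ^ d * Δ * (1 / (q : ℝ) ^ 3))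
              ≤ (2 * q) * (28 * (C2 * X) ^ d * Δ * (1 / (q : ℝ) ^ 3)) :=
                mul_le_mul_of_nonneg_right (l5_res q hq1) (by positivity)
            _ = 56 * (C2 * X) ^ d * Δ * (1 / (q : ℝ) ^ 2) := by
                field_simp
                ring
      _ = 56 * (C2 * X) ^ d * Δ * ∑ q ∈ Finset.Icc 1 (Qx X), 1 / (q : ℝ) ^ 2 := by
          rw [Finset.mul_sum]
      _ ≤ 56 * (C2 * X) ^ d * Δ * 2 :=
          mul_le_mul_of_nonneg_left (l5_sum _) (by positivity)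
      _ = 112 * (C2 * X) ^ d * Δ := by ring
  have hXk : (0 : ℝ) < (X : ℝ) ^ k := by positivity
  have h3 : 1 / (X : ℝ) ^ k * (112 * (C2 * X) ^ d * Δ) = 112 * C2 ^ d * ((X : ℝ) ^ (d - k) * Δ) := by
    have h4 : (X : ℝ) ^ d = (X : ℝ) ^ (d - k) * (X : ℝ) ^ k := by
      rw [← pow_add, Nat.sub_add_cancel hkd.le]
    rw [mul_pow, h4]
    field_simp
  have h4 := mul_le_mul_of_nonneg_left hmajor (by positivity : (0 : ℝ) ≤ 1 / (X : ℝ) ^ k)
  rw [h3] at h4
  have hfin : |(NN k d l : ℝ) - AvN k d l W J| ≤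
      2 * C1 * ((X : ℝ) ^ (d - k) * (X : ℝ) ^ (-δ)) +
        112 * C2 ^ d * ((X : ℝ) ^ (d - k) * Δ) := by
    linarith
  refine hfin.trans ?_
  have hXδ : 0 ≤ (X : ℝ) ^ (-δ) := by positivity
  have hP : 0 ≤ (X : ℝ) ^ (d - k) * (X : ℝ) ^ (-δ) := by positivity
  have hR : 0 ≤ (X : ℝ) ^ (d - k) * Δ := by positivity
  have hC2d : 0 ≤ C2 ^ d := by positivity
  have h5 : (2 * C1 + 112 * C2 ^ d) * (X : ℝ) ^ (d - k) *
      (η * K + 1 / K + 1 / Q1 + (X : ℝ) ^ (-δ)) =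
      (2 * C1 + 112 * C2 ^ d) * ((X : ℝ) ^ (d - k) * Δ + (X : ℝ) ^ (d - k) * (X : ℝ) ^ (-δ)) := by
    rw [hΔ]
    ring
  rw [h5]
  nlinarith [mul_nonneg hC1.le hR, mul_nonneg hC2d hP]

end Pool.Agent.H54.KS2
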